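import Pool.Agent.Helper7.HL.Stmts

set_option autoImplicit false

/-! HL row A3: the column operator on the products of `h_m[X / (1 - q)]`. -/

open Finset MvPolynomial

namespace Pool.Agent.Helper96.HL

open Pool.Agent.Helper7.HL Pool.Agent.Helper32.HG

lemma dl_stair (k : ℕ) (j : Fin k) : (dl k j : ℤ) = stair k j := by
  unfold dl stair
  rw [Fin.val_rev]
  have := j.isLt
  congr 1
  omega

lemma Sd_nat (k : ℕ) (S : Type) [CommRing S] (l : Fin k → ℤ) :
    Sd k S l = ∑ σ : Equiv.Perm (Fin k), ((Equiv.Perm.sign σ : ℤ) : MvPolynomial (Fin k) S) *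
      ∏ i, hz k S (l i - dl k (σ i)) := by
  unfold Sd
  rw [← Matrix.det_transpose, Matrix.det_apply']
  apply sum_congr rfl
  intro σ _
  congr 1
  apply prod_congr rfl
  intro i _
  rw [Matrix.transpose_apply, Matrix.of_apply, dl_stair]

/-- `gtt` with an integer index. -/
noncomputable def gz {K : Type} [Field K] (q : K) (a : ℤ) : Sy K :=
  if 0 ≤ a then gtt q a.toNat else 0

lemma shf_gz {K : Type} [Field K] (q : K) (k : ℕ)
    (hSG : ∀ m : ℕ, shf q k (gtt q m) =
      ∑ p ∈ antidiagonal m, C (gtt q p.1) * hk k (Sy K) p.2)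
    (B : ℕ) (b : ℤ) (hb : b ≤ B) :
    shf q k (gz q b) = ∑ a ∈ range (B + 1), C (gtt q a) * hz k (Sy K) (b - a) := by
  unfold gz
  by_cases h : 0 ≤ b
  · rw [if_pos h]
    obtain ⟨n, rfl⟩ := Int.eq_ofNat_of_zero_le h
    have hnB : n ≤ B := by exact_mod_cast hb
    rw [show ((n : ℕ) : ℤ).toNat = n from Int.toNat_natCast n, hSG n,
      Finset.Nat.sum_antidiagonal_eq_sum_range_succ (fun a c => C (gtt q a) * hk k (Sy K) c)]
    have hsub : range (n + 1) ⊆ range (B + 1) := by
      intro a ha
      rw [mem_range] at ha ⊢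
      omega
    rw [← sum_subset hsub]
    · apply sum_congr rfl
      intro a ha
      have ha' : a ≤ n := by rw [mem_range] at ha; omega
      unfold hz
      rw [if_pos (by omega)]
      congr 2
      omega
    · intro a _ ha
      rw [mem_range] at ha
      rw [hz_neg (by omega), mul_zero]
  · rw [if_neg h, map_zero]
    symm
    apply sum_eq_zero
    intro a _
    rw [hz_neg (by omega), mul_zero]

/-- `Lf` as an additive map. -/
noncomputable def LfH {k : ℕ} {S : Type} [CommRing S] (φ : Fin k → ℕ → S)
    (hadd : ∀ p p' : MvPolynomial (Fin k) S, Lf φ (p + p') = Lf φ p + Lf φ p') :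
    MvPolynomial (Fin k) S →+ S where
  toFun := Lf φ
  map_zero' := by
    have h := hadd 0 0
    rw [add_zero] at h
    exact left_eq_add.mp h
  map_add' := hadd

theorem st_A3 : ST_LF → ST_JT → ST_UL → ST_CV → ST_SG → ST_A3 := by
  intro hLF hJT hUL hCV hSG K _ q t hq k α
  obtain ⟨hadd, hC, -, halt⟩ := hLF k (Sy K) (bs t k)
  obtain ⟨hadd', hC', -, halt'⟩ := hLF k (Sy K) (csf q t k)
  have hSG' := hSG K q hq k
  obtain ⟨-, hCV2⟩ := hCV K q t hq
  set Φ := LfH (bs t k) hadd with hΦ
  set Ψ' := LfH (csf q t k) hadd' with hΨ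
  have hΦa : ∀ p, Φ p = Lf (bs t k) p := fun p => rfl
  have hΨa : ∀ p, Ψ' p = Lf (csf q t k) p := fun p => rfl
  set F : (Fin k → ℤ) → Sy K := fun γ =>
    Φ (Dl k (Sy K) * shf q k (∏ i, gz q (γ i))) -
      Ψ' (Dl k (Sy K) * ∏ i, hz k (Sy K) (γ i)) with hF
  have key := hUL k (Sy K) F (by
    intro γ i hγ
    have h1 : ∏ i, gz q (γ i) = 0 := by
      apply prod_eq_zero (mem_univ i)
      unfold gz
      rw [if_neg (by omega)]
    have h2 : ∏ i, hz k (Sy K) (γ i) = 0 := prod_eq_zero (mem_univ i) (hz_neg hγ)
    simp only [hF]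
    rw [h1, h2, map_zero, mul_zero, map_zero, map_zero, sub_zero]) (by
    intro β
    have hdet : Matrix.det (Matrix.of fun i j : Fin k => csf q t k j (β i)) =
        ∑ a ∈ Fintype.piFinset (fun i : Fin k => range (β i + 1)),
          (∏ i, gtt q (a i)) *
            Matrix.det (Matrix.of fun i j : Fin k => bs t k j (β i - a i)) := by
      have h1 : (Matrix.of fun i j : Fin k => csf q t k j (β i)) =
          fun i => ∑ a ∈ range (β i + 1), fun j => gtt q a * bs t k j (β i - a) := by
        funext i j
        rw [Matrix.of_apply, Finset.sum_apply, ← hCV2 k j (β i),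
          Finset.Nat.sum_antidiagonal_eq_sum_range_succ
            (fun a c => gtt q a * bs t k j c)]
      have h2 := (Matrix.detRowAlternating (R := Sy K) (n := Fin k)).toMultilinearMap.map_sum_finset
        (fun i a => fun j => gtt q a * bs t k j (β i - a)) (fun i => range (β i + 1))
      rw [h1]
      refine h2.trans ?_
      apply sum_congr rfl
      intro a _
      have h3 := (Matrix.detRowAlternating (R := Sy K) (n := Fin k)).toMultilinearMap.map_smul_univ
        (fun i => gtt q (a i)) (fun i => fun j => bs t k j (β i - a i))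
      exact h3
    have e1 : ∑ σ : Equiv.Perm (Fin k), (Equiv.Perm.sign σ : ℤ) •
        Φ (Dl k (Sy K) * shf q k (∏ i, gz q ((β i : ℤ) - dl k (σ i)))) =
        Matrix.det (Matrix.of fun i j : Fin k => csf q t k j (β i)) := by
      have h1 : ∀ σ : Equiv.Perm (Fin k), shf q k (∏ i, gz q ((β i : ℤ) - dl k (σ i))) =
          ∑ a ∈ Fintype.piFinset (fun i : Fin k => range (β i + 1)),
            C (∏ i, gtt q (a i)) *
              ∏ i, hz k (Sy K) (((β i : ℤ) - a i) - dl k (σ i)) := by
        intro σ
        rw [map_prod]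
        have h2 : ∀ i, shf q k (gz q ((β i : ℤ) - dl k (σ i))) =
            ∑ a ∈ range (β i + 1), C (gtt q a) * hz k (Sy K) ((β i : ℤ) - dl k (σ i) - a) :=
          fun i => shf_gz q k hSG' (β i) _ (by omega)
        simp_rw [h2]
        rw [prod_univ_sum]
        apply sum_congr rfl
        intro a _
        rw [prod_mul_distrib, map_prod]
        congr 1
        apply prod_congr rfl
        intro i _
        congr 1
        ring
      rw [hdet]
      calc ∑ σ : Equiv.Perm (Fin k), (Equiv.Perm.sign σ : ℤ) •
            Φ (Dl k (Sy K) * shf q k (∏ i, gz q ((β i : ℤ) - dl k (σ i))))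
          = Φ (∑ σ : Equiv.Perm (Fin k), (Equiv.Perm.sign σ : ℤ) •
            (Dl k (Sy K) * shf q k (∏ i, gz q ((β i : ℤ) - dl k (σ i))))) := by
            rw [map_sum]
            simp_rw [map_zsmul]
        _ = Φ (∑ a ∈ Fintype.piFinset (fun i : Fin k => range (β i + 1)),
            C (∏ i, gtt q (a i)) * altp k (Sy K) (fun i => β i - a i)) := by
            congr 1
            simp_rw [h1, mul_sum, smul_sum]
            rw [sum_comm]
            apply sum_congr rfl
            intro a ha
            rw [Fintype.mem_piFinset] at ha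
            rw [← hJT k (Sy K), Sd_nat, mul_sum, mul_sum]
            apply sum_congr rfl
            intro σ _
            rw [zsmul_eq_mul]
            have h4 : ∏ i, hz k (Sy K) ((β i : ℤ) - a i - dl k (σ i)) =
                ∏ i, hz k (Sy K) (((β i - a i : ℕ) : ℤ) - dl k (σ i)) := by
              apply prod_congr rfl
              intro i _
              have := mem_range.mp (ha i)
              congr 1
              omega
            rw [h4]
            ring
        _ = _ := by
            rw [map_sum]
            apply sum_congr rfl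
            intro a _
            rw [hΦa, hC, halt]
    have e2 : ∑ σ : Equiv.Perm (Fin k), (Equiv.Perm.sign σ : ℤ) •
        Ψ' (Dl k (Sy K) * ∏ i, hz k (Sy K) ((β i : ℤ) - dl k (σ i))) =
        Matrix.det (Matrix.of fun i j : Fin k => csf q t k j (β i)) := by
      calc ∑ σ : Equiv.Perm (Fin k), (Equiv.Perm.sign σ : ℤ) •
            Ψ' (Dl k (Sy K) * ∏ i, hz k (Sy K) ((β i : ℤ) - dl k (σ i)))
          = Ψ' (∑ σ : Equiv.Perm (Fin k), (Equiv.Perm.sign σ : ℤ) •
            (Dl k (Sy K) * ∏ i, hz k (Sy K) ((β i : ℤ) - dl k (σ i)))) := by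
            rw [map_sum]
            simp_rw [map_zsmul]
        _ = Ψ' (altp k (Sy K) β) := by
            congr 1
            rw [← hJT k (Sy K), Sd_nat, mul_sum]
            apply sum_congr rfl
            intro σ _
            rw [zsmul_eq_mul]
            ring
        _ = _ := by rw [hΨa, halt']
    simp only [hF, smul_sub, sum_sub_distrib]
    rw [e1, e2, sub_self])
  have h1 := key (fun i => (α i : ℤ))
  simp only [hF] at h1
  have h2 := sub_eq_zero.mp h1
  have h3 : ∏ i, gz q ((α i : ℕ) : ℤ) = ∏ i, gtt q (α i) := by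
    apply prod_congr rfl
    intro i _
    unfold gz
    rw [if_pos (by omega), Int.toNat_natCast]
  have h4 : ∏ i, hz k (Sy K) ((α i : ℕ) : ℤ) = ∏ i, hk k (Sy K) (α i) := by
    apply prod_congr rfl
    intro i _
    unfold hz
    rw [if_pos (by omega), Int.toNat_natCast]
  rw [h3, h4, hΦa, hΨa] at h2
  exact h2

end Pool.Agent.Helper96.HL
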