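import Pool.Agent.Helper96.HL.A3

set_option autoImplicit false

/-! HL row TQ: `H_mu` is in the span of the products of `h_m[X / (1 - q)]` above `mu`. -/

open Finset MvPolynomial

namespace Pool.Agent.Helper96.HL

open Pool.Agent.Helper7.HL Pool.Agent.Helper32.HG

lemma Dge.trans' {k : ℕ} {a b c : Fin k → ℤ} (h1 : Dge a b) (h2 : Dge b c) : Dge a c := by
  intro T
  obtain ⟨S, hS, hle⟩ := h2 T
  obtain ⟨S', hS', hle'⟩ := h1 S
  exact ⟨S', hS'.trans hS, hle.trans hle'⟩

lemma Dge.succ {k : ℕ} {a b : Fin k → ℤ} (h : Dge a b) :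
    Dge (fun i => a i + 1) (fun i => b i + 1) := by
  intro T
  obtain ⟨S, hS, hle⟩ := h T
  refine ⟨S, hS, ?_⟩
  rw [sum_add_distrib, sum_add_distrib]
  simp only [sum_const, hS]
  linarith

/-- extension by zeros -/
def ext0 (c k : ℕ) (ρ : Fin c → ℕ) (i : Fin k) : ℕ := if h : i.val < c then ρ ⟨i.val, h⟩ else 0

lemma ext0_cast {c k : ℕ} (h : c ≤ k) (ρ : Fin c → ℕ) (i : Fin c) :
    ext0 c k ρ (Fin.castLE h i) = ρ i := by
  unfold ext0
  rw [dif_pos (by simp)]
  rfl

lemma sum_ext0 {c k : ℕ} (h : c ≤ k) (ρ : Fin c → ℕ) (T : Finset (Fin k)) :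
    ∑ i ∈ T, (ext0 c k ρ i : ℤ) =
      ∑ i ∈ univ.filter (fun i : Fin c => Fin.castLE h i ∈ T), (ρ i : ℤ) := by
  have h1 : ∑ i ∈ T, (ext0 c k ρ i : ℤ) =
      ∑ i ∈ T.filter (fun i => i.val < c), (ext0 c k ρ i : ℤ) := by
    rw [sum_filter]
    apply sum_congr rfl
    intro i _
    split_ifs with hi
    · rfl
    · unfold ext0
      rw [dif_neg hi]
      rfl
  have h2 : T.filter (fun i => i.val < c) =
      (univ.filter (fun i : Fin c => Fin.castLE h i ∈ T)).map (Fin.castLEEmb h) := by
    ext i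
    simp only [mem_filter, mem_map, mem_univ, true_and, Fin.castLEEmb_apply]
    constructor
    · rintro ⟨hi, hic⟩
      exact ⟨⟨i.val, hic⟩, by simpa using hi, by ext; simp⟩
    · rintro ⟨j, hj, rfl⟩
      exact ⟨hj, by simp⟩
  rw [h1, h2, sum_map]
  apply sum_congr rfl
  intro i _
  rw [Fin.castLEEmb_apply, ext0_cast]

lemma Dge_ext0 {c k : ℕ} (h : c ≤ k) {ρ μ : Fin c → ℕ}
    (hd : Dge (fun i => (ρ i : ℤ)) (fun i => (μ i : ℤ))) :
    Dge (fun i => (ext0 c k ρ i : ℤ)) (fun i => (ext0 c k μ i : ℤ)) := by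
  intro T
  obtain ⟨S, hS, hle⟩ := hd (univ.filter (fun i : Fin c => Fin.castLE h i ∈ T))
  have hcard : S.card ≤ T.card := by
    rw [hS]
    have h1 : (univ.filter (fun i : Fin c => Fin.castLE h i ∈ T)).card =
        ((univ.filter (fun i : Fin c => Fin.castLE h i ∈ T)).map (Fin.castLEEmb h)).card :=
      (card_map _).symm
    rw [h1]
    apply card_le_card
    intro i hi
    rw [mem_map] at hi
    obtain ⟨j, hj, rfl⟩ := hi
    exact (mem_filter.mp hj).2
  obtain ⟨S', hS'1, hS'2⟩ := exists_superset_card_eq (s := S.map (Fin.castLEEmb h))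
    (n := T.card) (by rw [card_map]; exact hcard) (card_le_univ T)
  refine ⟨S', hS'2, ?_⟩
  rw [sum_ext0 h μ T]
  refine hle.trans ?_
  calc ∑ i ∈ S, (ρ i : ℤ) = ∑ i ∈ S.map (Fin.castLEEmb h), (ext0 c k ρ i : ℤ) := by
        rw [sum_map]
        apply sum_congr rfl
        intro i _
        rw [Fin.castLEEmb_apply, ext0_cast]
    _ ≤ ∑ i ∈ S', (ext0 c k ρ i : ℤ) := by
        apply sum_le_sum_of_subset_of_nonneg hS'1
        intro i _ _
        positivity

lemma sum_ext0_univ {c k : ℕ} (h : c ≤ k) (ρ : Fin c → ℕ) :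
    ∑ i, ext0 c k ρ i = ∑ i, ρ i := by
  have h1 := sum_ext0 h ρ univ
  have h2 : univ.filter (fun i : Fin c => Fin.castLE h i ∈ (univ : Finset (Fin k))) = univ := by
    simp
  rw [h2] at h1
  exact_mod_cast h1

lemma prod_ext0 {M : Type} [CommMonoid M] {c k : ℕ} (h : c ≤ k) (ρ : Fin c → ℕ) (g : ℕ → M)
    (hg : g 0 = 1) : ∏ i, g (ext0 c k ρ i) = ∏ i, g (ρ i) := by
  have h1 : ∏ i, g (ρ i) = ∏ i ∈ (univ : Finset (Fin c)).map (Fin.castLEEmb h),
      g (ext0 c k ρ i) := by
    rw [prod_map]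
    apply prod_congr rfl
    intro i _
    rw [Fin.castLEEmb_apply, ext0_cast]
  rw [h1]
  symm
  apply prod_subset (subset_univ _)
  intro i _ hi
  have h2 : ¬ i.val < c := by
    intro hc
    apply hi
    rw [mem_map]
    exact ⟨⟨i.val, hc⟩, mem_univ _, by ext; simp⟩
  unfold ext0
  rw [dif_neg h2, hg]

lemma sum_rowl (k : ℕ) (cs : List ℕ) (h : ∀ c ∈ cs, c ≤ k) : ∑ i, rowl k cs i = cs.sum := by
  induction cs with
  | nil => simp [rowl]
  | cons c cs ih =>
    have hc : c ≤ k := h c List.mem_cons_self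
    have ih' := ih (fun d hd => h d (List.mem_cons_of_mem _ hd))
    have h1 : ∀ i : Fin k, rowl k (c :: cs) i = rowl k cs i + if i.val < c then 1 else 0 := by
      intro i
      unfold rowl
      rw [List.countP_cons]
      simp
    simp_rw [h1]
    rw [sum_add_distrib, ih', List.sum_cons, ← card_filter, card_lt c hc, add_comm]

lemma rowl_ext0 (c k : ℕ) (cs : List ℕ) (h : ∀ d ∈ cs, d ≤ c) :
    rowl k cs = ext0 c k (rowl c cs) := by
  funext i
  unfold ext0
  split_ifs with hi
  · rfl
  · unfold rowl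
    rw [List.countP_eq_zero]
    intro d hd
    have := h d hd
    simp
    omega

lemma map_Dl (k : ℕ) (K : Type) [Field K] :
    MvPolynomial.map (C : K →+* Sy K) (Dl k K) = Dl k (Sy K) := by
  unfold Dl altp
  rw [map_sum]
  apply sum_congr rfl
  intro σ _
  rw [map_monomial, map_intCast]

lemma map_hk (k : ℕ) (K : Type) [Field K] (a : ℕ) :
    MvPolynomial.map (C : K →+* Sy K) (hk k K a) = hk k (Sy K) a := by
  unfold hk
  rw [map_sum]
  apply sum_congr rfl
  intro σ _
  rw [map_monomial, map_one]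

/-- the column operator as a linear map -/
noncomputable def BopL {K : Type} [Field K] (hLF : ST_LF) (q t : K) (k : ℕ) :
    Sy K →ₗ[K] Sy K where
  toFun := Bop q t k
  map_add' f g := by
    unfold Bop
    rw [map_add, mul_add]
    exact (hLF k (Sy K) (bs t k)).1 _ _
  map_smul' a f := by
    unfold Bop
    have h1 : shf q k (a • f) = C (C a) * shf q k f := by
      rw [map_smul, Algebra.smul_def]
      rfl
    have h2 : Dl k (Sy K) * (C (C a) * shf q k f) = C (C a) * (Dl k (Sy K) * shf q k f) := by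
      ring
    rw [h1, h2, (hLF k (Sy K) (bs t k)).2.1, RingHom.id_apply, MvPolynomial.smul_eq_C_mul]

lemma Bop_spg (hA3 : ST_A3) (hLF : ST_LF) (hKD : ST_KD) (hDG : ST_DG) {K : Type} [Field K]
    (q t : K) (hq : GQ q) (k : ℕ) (μ : Fin k → ℕ) (f : Sy K) (hf : f ∈ spg q k μ) :
    Bop q t k f ∈ spg q k (fun i => μ i + 1) := by
  have hle : spg q k μ ≤ (spg q k (fun i => μ i + 1)).comap (BopL hLF q t k) := by
    unfold spg
    rw [Submodule.span_le]
    rintro x ⟨α, hα, hsum, rfl⟩
    rw [SetLike.mem_coe, Submodule.mem_comap]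
    change Bop q t k (∏ i, gtt q (α i)) ∈ _
    rw [hA3 K q t hq k α]
    unfold Lf
    apply Submodule.sum_mem
    intro l hl
    set p : MvPolynomial (Fin k) (Sy K) := Dl k (Sy K) * ∏ i, hk k (Sy K) (α i) with hp
    have hpm : p = MvPolynomial.map C (Dl k K * ∏ i, hk k K (α i)) := by
      rw [map_mul, map_Dl, map_prod]
      simp_rw [map_hk]
      exact hp
    have hcoef : coeff l p = C (coeff l (Dl k K * ∏ i, hk k K (α i))) := by
      rw [hpm, coeff_map]
    have hne : coeff l p ≠ 0 := mem_support_iff.mp hl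
    have hl' : ex (fun i => l i) = l := ex_coe l
    have hKD' := hKD k (Sy K) α (fun i => l i)
    rw [hl'] at hKD'
    have hne2 : coeff (ex α) (Sd k (Sy K) (fun i => ((l i : ℕ) : ℤ))) ≠ 0 := by
      rw [← hKD']
      exact hne
    obtain ⟨hD1, hD2⟩ := hDG k (Sy K) α (fun i => l i) hne2
    rw [hcoef, ← MvPolynomial.smul_eq_C_mul]
    apply Submodule.smul_mem
    by_cases hex : ∃ j, l j + 1 < dl k j
    · obtain ⟨j, hj⟩ := hex
      have h0 : ∏ j, csf q t k j (l j) = 0 := by
        apply prod_eq_zero (mem_univ j)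
        unfold csf
        rw [if_pos hj]
      rw [h0]
      exact Submodule.zero_mem _
    · push Not at hex
      have h1 : ∏ j, csf q t k j (l j) =
          C (∏ j, (1 - q ^ (l j + 1 - dl k j) * t ^ (dl k j))) *
            ∏ j, gtt q (l j + 1 - dl k j) := by
        rw [map_prod, ← prod_mul_distrib]
        apply prod_congr rfl
        intro j _
        unfold csf
        rw [if_neg (by have := hex j; omega)]
      rw [h1, ← MvPolynomial.smul_eq_C_mul]
      apply Submodule.smul_mem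
      apply Submodule.subset_span
      refine ⟨fun j => l j + 1 - dl k j, ?_, ?_, rfl⟩
      · have h2 := Dge.succ (Dge.trans' hD1 hα)
        have h3 : (fun i => (((l i + 1 - dl k i : ℕ)) : ℤ)) =
            fun i => ((l i : ℤ) - dl k i + 1) := by
          funext i
          have := hex i
          omega
        have h4 : (fun i => (((μ i + 1 : ℕ)) : ℤ)) = fun i => ((μ i : ℤ) + 1) := by
          funext i
          push_cast
          rfl
        rw [h3, h4]
        exact h2
      · have h5 : (∑ i, ((l i + 1 - dl k i : ℕ) : ℤ)) = ∑ i, (((μ i + 1 : ℕ)) : ℤ) := by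
          have h6 : (∑ i, ((l i + 1 - dl k i : ℕ) : ℤ)) =
              ∑ i, ((l i : ℤ) - dl k i + 1) := by
            apply sum_congr rfl
            intro i _
            have := hex i
            omega
          rw [h6, sum_add_distrib, sum_sub_distrib, hD2]
          have h7 : (∑ i, (α i : ℤ)) = ∑ i, (μ i : ℤ) := by exact_mod_cast hsum
          rw [h7]
          push_cast
          rw [sum_add_distrib]
          ring
        exact_mod_cast h5
  exact hle hf

lemma spg_ext0 {K : Type} [Field K] (q : K) {c k : ℕ} (h : c ≤ k) (μ : Fin c → ℕ) (f : Sy K)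
    (hf : f ∈ spg q c μ) : f ∈ spg q k (ext0 c k μ) := by
  have hle : spg q c μ ≤ spg q k (ext0 c k μ) := by
    unfold spg
    rw [Submodule.span_le]
    rintro x ⟨ρ, hρ, hsum, rfl⟩
    apply Submodule.subset_span
    refine ⟨ext0 c k ρ, Dge_ext0 h hρ, ?_, ?_⟩
    · rw [sum_ext0_univ h, sum_ext0_univ h, hsum]
    · rw [prod_ext0 h ρ (gtt q)]
      rw [gtt]
  exact hle hf

theorem st_TQ : ST_A3 → ST_LF → ST_KD → ST_DG → ST_TQ := by
  intro hA3 hLF hKD hDG K _ q t hq k cs
  induction cs generalizing k with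
  | nil =>
    intro _
    refine ⟨?_, by simp [rowl]⟩
    apply Submodule.subset_span
    refine ⟨fun _ => 0, ?_, ?_, ?_⟩
    · intro T
      exact ⟨T, rfl, by simp [rowl]⟩
    · simp [rowl]
    · rw [Hc]
      simp [gtt]
  | cons c cs ih =>
    intro hdec
    have hdec' : Dec (c :: cs) := (List.pairwise_cons.mp hdec).2
    have hkc : ∀ d ∈ c :: cs, d ≤ k := (List.pairwise_cons.mp hdec).1
    have hc : c ≤ k := hkc c List.mem_cons_self
    have hcd : ∀ d ∈ c :: cs, d ≤ c := by
      intro d hd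
      rcases List.mem_cons.mp hd with rfl | hd'
      · exact le_refl _
      · exact (List.pairwise_cons.mp hdec').1 d hd'
    refine ⟨?_, sum_rowl k (c :: cs) hkc⟩
    have h1 := (ih c hdec').1
    have h2 := Bop_spg hA3 hLF hKD hDG q t hq c (rowl c cs) _ h1
    have h3 : (fun i => rowl c cs i + 1) = rowl c (c :: cs) := by
      funext i
      unfold rowl
      rw [List.countP_cons]
      simp
    rw [h3] at h2
    have h4 := spg_ext0 q hc _ _ h2
    rw [← rowl_ext0 c k (c :: cs) hcd] at h4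
    exact h4

end Pool.Agent.Helper96.HL
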